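import Mathlib
import Pool.Prelude.Def_F_c31e40fa
import Pool.Agent.H439.MC.Mom4

/-!
# MP_c6f924_an: the central limit theorem for the exterior map of the Mandelbrot set

Let `ψ` be the exterior map of the Multibrot set `M` of degree `d ≥ 2` (`d = 2`: the Mandelbrot
set). `M` is locally connected if and only if `ψ` extends continuously to the unit circle. We prove
the central limit theorem for `log ψ'` on the circles of radius `R → 1`, and for the distance of
`ψ (R e^{iθ})` from `M`, with convergence of all moments (even of the expectations of functions of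
Gaussian growth); the limit variance is a bounded function, not zero almost everywhere. In
particular the asymptotic variance
`lim (2 π log (1 / (R - 1)))⁻¹ ∫ |log ψ' (R e^{iθ})| ^ 2 dθ` exists and is positive and finite.
-/

set_option autoImplicit false

open Filter Topology Set Metric MeasureTheory Bornology N62a1eb23

namespace Pool.Agent.Results.MP_c6f924_an.CentralLimitTheorem

open Pool.Agent.H713R2 (IsExteriorMap)
open ProbabilityTheory (gaussianReal)

/-- `L` is the logarithm of the derivative of `ψ` outside the closed unit disc: it is holomorphic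
there, `exp L = ψ'`, and it vanishes at infinity. So its real part is `log |ψ'|` and its imaginary
part is the (continuous) argument of `ψ'`. -/
structure IsLogDeriv (ψ L : ℂ → ℂ) : Prop where
  diff : DifferentiableOn ℂ L {z | 1 < ‖z‖}
  exp : ∀ z : ℂ, 1 < ‖z‖ → Complex.exp (L z) = deriv ψ z
  infinity : Tendsto L (cobounded ℂ) (𝓝 0)

/-- The point `R e^{iθ}`. -/
noncomputable def pt (R θ : ℝ) : ℂ := R * Complex.exp (θ * Complex.I)

/-- The expectation of `f (s * (x + i y))` for independent standard normal `x`, `y`. -/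
noncomputable def gauss (f : ℂ → ℝ) (s : ℝ) : ℝ :=
  ∫ x, ∫ y, f (s * (x + y * Complex.I)) ∂(gaussianReal 0 1) ∂(gaussianReal 0 1)

/-- The two limits for the weight `φ` and the test function `f`, as `R → 1+`, with
`T = log (1 / (R - 1))`:

(1) `∫ φ(θ) f (L (R e^{iθ}) / √T) dθ → ∫ φ(θ) E f (σ(θ) (x + i y)) dθ`, where `x`, `y` are
independent standard normal;

(2) the same with `log (dist (ψ (R e^{iθ}), M) / (R - 1))` in place of `Re L (R e^{iθ}) = log |ψ'|`. -/
def Limits (M : Set ℂ) (ψ L : ℂ → ℂ) (σ φ : ℝ → ℝ) (f : ℂ → ℝ) : Prop :=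
  Tendsto (fun R : ℝ => ∫ θ in (0 : ℝ)..2 * Real.pi,
    φ θ * f (L (pt R θ) / √(Real.log (1 / (R - 1))))) (𝓝[>] 1)
    (𝓝 (∫ θ in (0 : ℝ)..2 * Real.pi, φ θ * gauss f (σ θ))) ∧
  Tendsto (fun R : ℝ => ∫ θ in (0 : ℝ)..2 * Real.pi,
    φ θ * f ((Real.log (infDist (ψ (pt R θ)) M / (R - 1)) +
      (L (pt R θ)).im * Complex.I) / √(Real.log (1 / (R - 1))))) (𝓝[>] 1)
    (𝓝 (∫ θ in (0 : ℝ)..2 * Real.pi, φ θ * gauss f (σ θ)))

/-- **Central limit theorem for the exterior map.** Let `M` be the Multibrot set of degree `d ≥ 2`.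
Its exterior map `ψ` exists, and there is a measurable function `σ ≥ 0` on `(0, 2π]`, bounded
(`σ ^ 2 < 75` almost everywhere) and with positive integral, such that the limits (1) and (2) of
`Limits`, for `L = log ψ'`, hold

* for every integrable `φ` and every bounded continuous `f : ℂ → ℝ`; and
* for every bounded measurable `φ` and every continuous `f` with `|f w| ≤ C exp (|w| ^ 2 / 600)`, for
  instance for all polynomials in the coordinates of `w`: all moments converge. -/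
theorem result (d : ℕ) (hd : 2 ≤ d) :
    (∃ ψ : ℂ → ℂ, IsExteriorMap (multibrotSet d) ψ) ∧
    ∃ σ : ℝ → ℝ, Measurable σ ∧ (∀ θ, 0 ≤ σ θ) ∧
      (∀ᵐ θ ∂(volume.restrict (Ioc 0 (2 * Real.pi))), σ θ ^ 2 < 75) ∧
      0 < ∫ θ in (0 : ℝ)..2 * Real.pi, σ θ ∧
      ∀ ψ : ℂ → ℂ, IsExteriorMap (multibrotSet d) ψ →
        (∃ L : ℂ → ℂ, IsLogDeriv ψ L) ∧
        ∀ L : ℂ → ℂ, IsLogDeriv ψ L →
        (∀ φ : ℝ → ℝ, IntervalIntegrable φ volume 0 (2 * Real.pi) →
          ∀ f : BoundedContinuousFunction ℂ ℝ, Limits (multibrotSet d) ψ L σ φ f) ∧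
        ∀ φ : ℝ → ℝ, Measurable φ → (∃ Φ : ℝ, ∀ θ, |φ θ| ≤ Φ) → ∀ f : ℂ → ℝ, Continuous f →
          (∃ C : ℝ, ∀ w, |f w| ≤ C * Real.exp (‖w‖ ^ 2 / 600)) →
          Limits (multibrotSet d) ψ L σ φ f := by
  obtain ⟨β, hβ⟩ := Pool.Agent.H713R2.exists_beta (d := d) hd
  refine ⟨⟨_, Pool.Agent.H713R2.exteriorMap_of_beta hβ⟩, ?_⟩
  obtain ⟨σ, h1, h2, h3, h4, h5⟩ := Pool.Agent.H439.MC.clt_full2 hd hβ
  refine ⟨σ, h1, h2, h3, h4, ?_⟩
  intro ψ hψ
  refine ⟨?_, ?_⟩
  · obtain ⟨L, hL⟩ := Pool.Agent.H439.MC.exists_isLogDeriv hβ hψ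
    exact ⟨L, hL.diff, hL.exp, hL.infinity⟩
  · intro L hL
    obtain ⟨h6, h7⟩ := h5 ψ hψ L ⟨hL.diff, hL.exp, hL.infinity⟩
    exact ⟨fun φ hφ f => h6 φ hφ f, fun φ hφ hb f hf hC => h7 φ hφ hb f hf hC⟩

end Pool.Agent.Results.MP_c6f924_an.CentralLimitTheorem
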