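import Mathlib
import Pool.Prelude.Def_F_c31e40fa
import Pool.Graph.R_pool_sql_team_seeded_63374d34.Results.MP_fcb70f_an.PerfectCopies
import Pool.Graph.R_seed8.R240.Sep
import Pool.Agent.H206.GreH

/-!
# Green's function and harmonic measure around the small copies of the Mandelbrot set

Let `M` be the Multibrot set of degree `d ≥ 2` (for `d = 2` the Mandelbrot set) and `ψ` its exterior
map: an angle `t` is the angle of the external ray `ψ (ρ exp (i t))`, `ρ > 1`, and Green's function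
of `M` is `log |w|` at the point `ψ w`. Local connectivity of `M` means that `ψ` has a continuous
extension `F` to the closed exterior of the unit disc.

Every superattracting parameter `c` of exact period `n` is the centre of a small copy of `M`, of
scale `l`. We determine the size of Green's function and of the harmonic measure around most of
these copies, from the outside down to the copy.

**Theorem.** For most superattracting parameters `c` of exact period `n` (their proportion converges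
to one), and for all of them close to a parameter with a positive Lyapunov exponent:

* for `0 ≤ s ≤ 1` and bounded `j` the maximum of Green's function over the disc of radius
  `|l| ^ β`, `β = 1 - (1 - s (d - 1) / d) / d ^ j`, about `c` is `d ^ (-(j + s ± ε) n)`, and so is its
  harmonic measure. So the local exponent of both is multiplied by `d` each time when the radius
  passes through one of the values `|l| ^ (1 - 1 / d ^ j)`;
* at the scale of the copy they are superexponentially small: about every point `c + l κ₀` with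
  `κ₀` outside of `M` the maximum of Green's function over the disc of radius `ε |l|` is
  `exp (-(1 ± ε) n log n)`, and the harmonic measure of the disc of radius `|l| / ε` about `c` is at
  most `exp (-(1 - ε) n log n)`;
* hence, if `M` is locally connected, `F` leaves the disc of radius `|l| / ε` about `c` on every arc
  of length `exp (-(1 - ε) n log n)`, while `|l|` is only exponentially small.
-/

set_option autoImplicit false

open MeasureTheory Filter Metric Topology Set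

namespace Pool.Agent.Results.MP_c6f924_an.GreenAroundCopies

open N62a1eb23
open Pool.Agent.H713R2 (IsExteriorMap)

/-- The polynomial `z ^ d + c`. -/
def f (d : ℕ) (c : ℂ) : ℂ → ℂ := fun z => z ^ d + c

/-- The superattracting parameters of exact period `n`: the critical point `0` of `z ^ d + c` is
periodic with least period `n`. -/
def centres (d n : ℕ) : Set ℂ := {c | Function.minimalPeriod (f d c) 0 = n}

/-- The critical orbit as a function of the parameter. -/
def crit (d n : ℕ) (c : ℂ) : ℂ := (f d c)^[n] 0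

/-- The scales of the copy: `l` for the parameters and `m` for the dynamics. They are explicit, and
`|l| = exp (- (χ d / (d - 1) ± ε) n)`, `|m| = exp (- (χ / (d - 1) ± ε) n)`. -/
def Scales (d n : ℕ) (c l m : ℂ) (χ ε : ℝ) : Prop :=
  l ≠ 0 ∧ m ≠ 0 ∧ m ^ (d - 1) * deriv ((f d c)^[n - 1]) c = 1 ∧ l * deriv (crit d n) c = m ∧
    |-Real.log ‖l‖ / n - χ * d / (d - 1)| ≤ ε ∧ |-Real.log ‖m‖ / n - χ / (d - 1)| ≤ ε

/-- The angles `t ∈ (0, 2π]` of the external rays landing at distance less than `r` from `x`. Up to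
the factor `2π` its length is the harmonic measure (from infinity) of the disc of radius `r`. -/
def angles (ψ : ℂ → ℂ) (x : ℂ) (r : ℝ) : Set ℝ :=
  {t | t ∈ Ioc 0 (2 * Real.pi) ∧ ∃ ζ ∈ ball x r,
    Tendsto (fun ρ : ℝ => ψ (ρ * Complex.exp (t * Complex.I))) (𝓝[>] 1) (𝓝 ζ)}

/-- The harmonic measure of the disc of radius `r` about `x`, up to the factor `2π`. -/
noncomputable def harm (ψ : ℂ → ℂ) (x : ℂ) (r : ℝ) : ℝ := (volume (angles ψ x r)).toReal

/-- The maximum of Green's function of the Multibrot set over the disc of radius `r` about `x`: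
Green's function is `log ‖w‖` at the point `ψ w`. -/
noncomputable def green (ψ : ℂ → ℂ) (x : ℂ) (r : ℝ) : ℝ :=
  sSup {y | ∃ w : ℂ, 1 < ‖w‖ ∧ ‖ψ w - x‖ ≤ r ∧ Real.log ‖w‖ = y}

/-- The exponents of the radii: `radExp d j 0 = 1 - 1 / d ^ j`, and it is affine in `s`. -/
noncomputable def radExp (d j : ℕ) (s : ℝ) : ℝ := 1 - (1 - s * (d - 1) / d) / d ^ j

/-- The laws around the small copy of centre `c` and period `n`. -/
def Laws (d : ℕ) (ψ : ℂ → ℂ) (χ ε : ℝ) (n : ℕ) (c : ℂ) : Prop :=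
  ∃ l m : ℂ, Scales d n c l m χ ε ∧
    -- outside of the scale of the copy
    (∀ j : ℕ, (j : ℝ) ≤ 1 / ε → ∀ s : ℝ, 0 ≤ s → s ≤ 1 →
      |-Real.log (green ψ c (‖l‖ ^ radExp d j s)) / (n * Real.log d) - (j + s)| ≤ ε ∧
      |-Real.log (harm ψ c (‖l‖ ^ radExp d j s)) / (n * Real.log d) - (j + s)| ≤ ε) ∧
    -- Green's function at the scale of the copy
    (∀ κ₀ : ℂ, ‖κ₀‖ ≤ 1 / ε → κ₀ ∉ multibrotSet d →
      |-Real.log (green ψ (c + l * κ₀) (ε * ‖l‖)) / (n * Real.log n) - 1| ≤ ε) ∧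
    -- harmonic measure at the scale of the copy
    harm ψ c (‖l‖ / ε) ≤ Real.exp (-((1 - ε) * (n * Real.log n))) ∧
    -- a continuous extension of the exterior map to the unit circle
    ∀ F : ℂ → ℂ, ContinuousOn F {w : ℂ | 1 ≤ ‖w‖} → (∀ w : ℂ, 1 < ‖w‖ → F w = ψ w) →
      ∀ ζ : ℂ, ‖ζ‖ = 1 → ∃ ξ : ℂ, ‖ξ‖ = 1 ∧
        ‖ξ - ζ‖ ≤ Real.exp (-((1 - ε) * (n * Real.log n))) ∧ ‖l‖ / ε ≤ ‖F ξ - c‖

open Pool.Agent.N772.TC Pool.Agent.N772.PC Pool.Agent.H206.Gre
open Pool.Agent.Results.MP_fcb70f_an (PerfectCopies.log_near')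

/-- from two bounds to an exponent -/
theorem ratio {A x e g : ℝ} (hA : 0 < A) (h1 : Real.exp (-((x + e) * A)) ≤ g)
    (h2 : g ≤ Real.exp (-((x - e) * A))) : |-Real.log g / A - x| ≤ e := by
  have hg : 0 < g := (Real.exp_pos _).trans_le h1
  have h3 := (Real.le_log_iff_exp_le hg).2 h1
  have h4 := (Real.log_le_iff_le_exp hg).2 h2
  have h5 : -Real.log g / A - x = (-Real.log g - x * A) / A := by field_simp
  rw [h5, abs_le, div_le_iff₀ hA, le_div_iff₀ hA]
  constructor <;> linarith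

/-- the maximum of Green's function -/
theorem green_bounds {ψ : ℂ → ℂ} {x w : ℂ} {r a b : ℝ} (hb : 0 ≤ b)
    (h1 : ∀ w : ℂ, 1 < ‖w‖ → ‖ψ w - x‖ ≤ r → Real.log ‖w‖ ≤ b) (hw : 1 < ‖w‖)
    (hwr : ‖ψ w - x‖ ≤ r) (ha : a ≤ Real.log ‖w‖) : a ≤ green ψ x r ∧ green ψ x r ≤ b := by
  constructor
  · refine ha.trans (le_csSup ⟨b, ?_⟩ ⟨w, hw, hwr, rfl⟩)
    rintro y ⟨w', hw', hwr', rfl⟩
    exact h1 w' hw' hwr'
  · apply Real.sSup_le _ hb
    rintro y ⟨w', hw', hwr', rfl⟩
    exact h1 w' hw' hwr'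

/-- the exponent -/
theorem Lx_eq {d : ℕ} (hd : 2 ≤ d) (χ : ℝ) (j : ℕ) {s : ℝ} (h0 : 0 ≤ s) (h1 : s ≤ 1) :
    Lx d χ (j + s) = χ * d / (d - 1) * radExp d j s := by
  have hdR : (2 : ℝ) ≤ d := by exact_mod_cast hd
  have hd0 : (d : ℝ) ≠ 0 := by linarith
  have hd1 : (d : ℝ) - 1 ≠ 0 := by linarith
  have hlam : lam d χ j s = χ * d / (d - 1) * radExp d j s := by
    unfold lam radExp
    field_simp
  rcases lt_or_eq_of_le h1 with h2 | rfl
  · have h3 : ⌊(j : ℝ) + s⌋₊ = j := by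
      rw [Nat.floor_eq_iff (by positivity)]
      constructor <;> linarith
    unfold Lx
    rw [h3, add_sub_cancel_left, hlam]
  · have h3 : ⌊(j : ℝ) + 1⌋₊ = j + 1 := by
      rw [Nat.floor_eq_iff (by positivity)]
      push_cast
      constructor <;> linarith
    unfold Lx
    rw [h3, ← hlam, ← lam_step hd]
    push_cast
    rw [sub_self]

theorem radExp_bd {d : ℕ} (hd : 2 ≤ d) (j : ℕ) {s : ℝ} (h0 : 0 ≤ s) (h1 : s ≤ 1) :
    0 ≤ radExp d j s ∧ radExp d j s ≤ 1 := by
  have hdR : (2 : ℝ) ≤ d := by exact_mod_cast hd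
  have hd0 : (0 : ℝ) < d := by linarith
  have hD : (1 : ℝ) ≤ (d : ℝ) ^ j := one_le_pow₀ (by linarith)
  have h2 : 0 ≤ s * ((d : ℝ) - 1) / d := by
    apply div_nonneg _ hd0.le
    apply mul_nonneg h0
    linarith
  have h3 : s * ((d : ℝ) - 1) / d ≤ 1 := by
    rw [div_le_one hd0]
    nlinarith
  have h4 : 0 ≤ (1 - s * ((d : ℝ) - 1) / d) / d ^ j := by
    apply div_nonneg
    · linarith
    · positivity
  have h5 : (1 - s * ((d : ℝ) - 1) / d) / d ^ j ≤ 1 := by
    rw [div_le_one (by positivity)]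
    linarith
  unfold radExp
  constructor <;> linarith

/-- near a parameter with a Lyapunov exponent -/
theorem near {d : ℕ} (hd : 2 ≤ d) {χ : ℝ} {c₀ : ℂ} (h : Pool.Agent.Y298.CA.Lyap d χ c₀)
    {ψ : ℂ → ℂ} (hψ : IsExteriorMap (multibrotSet d) ψ) {ε : ℝ} (hε : 0 < ε) (hε1 : ε ≤ 1) :
    ∃ δ : ℝ, 0 < δ ∧ ∀ᶠ n : ℕ in atTop, ∀ c ∈ centres d n,
      ‖c - c₀‖ ≤ Real.exp (-((χ - δ) * n)) → Laws d ψ χ ε n c := by
  have hχ := h.1
  have hdR : (2 : ℝ) ≤ d := by exact_mod_cast hd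
  have hd1 : (0 : ℝ) < (d : ℝ) - 1 := by linarith
  have hlogd : 0 < Real.log d := Real.log_pos (by linarith)
  have hY : 0 < χ / (d - 1) := by positivity
  have hR : 1 ≤ 1 / ε + ε := by
    have : 1 ≤ 1 / ε := by rwa [le_div_iff₀ hε, one_mul]
    linarith
  have hR1 : 1 ≤ 1 / ε := by rwa [le_div_iff₀ hε, one_mul]
  obtain ⟨J, hJ⟩ := exists_nat_ge (1 / ε + 1)
  obtain ⟨ε₁, hε₁, δ₁, hδ₁, H1⟩ := law_x hd h hψ J hε hε1
  obtain ⟨δ₂, hδ₂, H2⟩ := copy_up hd h hψ hR (half_pos hε)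
  obtain ⟨δ₃, hδ₃, H3⟩ := copy_low_all hd h hψ hε
  obtain ⟨δ', hδ'⟩ : ∃ δ' : ℝ, δ' = min (min δ₁ (4 * ε₁))
    (min (min δ₂ δ₃) (min ε (χ / (d - 1)))) := ⟨_, rfl⟩
  have hδ'0 : 0 < δ' := by rw [hδ']; positivity
  have e1 : δ' ≤ δ₁ := by rw [hδ']; exact (min_le_left _ _).trans (min_le_left _ _)
  have e2 : δ' ≤ 4 * ε₁ := by rw [hδ']; exact (min_le_left _ _).trans (min_le_right _ _)
  have e3 : δ' ≤ δ₂ := by
    rw [hδ']
    exact (min_le_right _ _).trans ((min_le_left _ _).trans (min_le_left _ _))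
  have e4 : δ' ≤ δ₃ := by
    rw [hδ']
    exact (min_le_right _ _).trans ((min_le_left _ _).trans (min_le_right _ _))
  have e5 : δ' ≤ ε := by
    rw [hδ']
    exact (min_le_right _ _).trans ((min_le_right _ _).trans (min_le_left _ _))
  have e6 : δ' ≤ χ / (d - 1) := by
    rw [hδ']
    exact (min_le_right _ _).trans ((min_le_right _ _).trans (min_le_right _ _))
  obtain ⟨δ, hδ, H⟩ := uni_near hd h (show 0 < δ' / 4 by positivity)
  refine ⟨min δ δ', lt_min hδ hδ'0, ?_⟩
  filter_upwards [H, H1, H2, H3, eventually_ge_atTop 3,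
    ev_nlog (show 0 < ε / 2 by positivity) 0] with n hn hn1 hn2 hn3 hn4 hn5 c hc hcc
  have hnR : (3 : ℝ) ≤ n := by exact_mod_cast hn4
  have hn0 : (0 : ℝ) < n := by linarith
  have hlogn : 1 ≤ Real.log n := by
    rw [Real.le_log_iff_exp_le (by linarith)]
    have := Real.exp_one_lt_d9
    linarith
  have hnl : 0 < n * Real.log n := by positivity
  have hnd : 0 < n * Real.log d := by positivity
  have hexp' : ∀ {a b : ℝ}, b ≤ a → Real.exp (-(a * n)) ≤ Real.exp (-(b * n)) := by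
    intro a b hab
    gcongr
  have hP : Pool.Agent.H712R2.P d n c = 0 := Pool.Agent.N896.MB.per_zero hc
  have hcM : c ∈ multibrotSet d := Pool.Agent.R240.Trans.centre_mem hd (by omega) hP
  obtain ⟨l, m, hl, hm, a1, a2, ⟨a3, a4⟩, ⟨a5, a6⟩, hU⟩ := hn c hP
    (hcc.trans (hexp' (by linarith [min_le_left δ δ'])))
  have hCp : Cp d n χ δ' c₀ c l m := ⟨hcM, hP, hl, hm,
    hcc.trans (hexp' (by linarith [min_le_right δ δ'])), a3, a4, a5, a6, hU⟩
  have hln : 0 < ‖l‖ := norm_pos_iff.2 hl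
  have hl1 : ‖l‖ ≤ 1 := by
    refine a4.trans (Real.exp_le_one_iff.2 ?_)
    have h1 : χ / ((d : ℝ) - 1) * 2 ≤ χ / (d - 1) * d := by gcongr
    have h2 : χ * d / ((d : ℝ) - 1) = χ / (d - 1) * d := by ring
    have h3 : 0 ≤ (χ * d / ((d : ℝ) - 1) - δ' / 4) * n := mul_nonneg (by linarith) hn0.le
    linarith
  refine ⟨l, m, ⟨hl, hm, a1, a2, ?_, ?_⟩, ?_, ?_, ?_, ?_⟩
  · exact (PerfectCopies.log_near' hn0 a3 a4).trans (by linarith)
  · exact (PerfectCopies.log_near' hn0 a5 a6).trans (by linarith)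
  · intro j hj s hs0 hs1
    obtain ⟨hb0, hb1⟩ := radExp_bd hd j hs0 hs1
    have hLx := Lx_eq hd χ j hs0 hs1
    obtain ⟨r, hr⟩ : ∃ r : ℝ, r = ‖l‖ ^ radExp d j s := ⟨_, rfl⟩
    rw [← hr]
    have hrexp : r = Real.exp (Real.log ‖l‖ * radExp d j s) := by
      rw [hr, Real.rpow_def_of_pos hln]
    have hll1 := (Real.le_log_iff_exp_le hln).2 a3
    have hll2 := (Real.log_le_iff_le_exp hln).2 a4
    have hβ : δ' / 4 * radExp d j s ≤ ε₁ := by
      calc δ' / 4 * radExp d j s ≤ δ' / 4 * 1 := by gcongr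
        _ ≤ ε₁ := by linarith
    obtain ⟨h1, ⟨w, hw, hw2, hw3⟩, h3, h4⟩ := hn1 c l m (Cp_mono e1 hCp) (j + s) (by positivity)
      (by linarith) r (by
        rw [hrexp]
        apply Real.exp_le_exp.2
        have h5 : -((χ * d / (d - 1) + δ' / 4) * n) * radExp d j s ≤
          Real.log ‖l‖ * radExp d j s := by gcongr
        refine le_trans ?_ h5
        rw [hLx]
        have h6 : δ' / 4 * radExp d j s * n ≤ ε₁ * n := by gcongr
        linarith) (by
        rw [hrexp]
        apply Real.exp_le_exp.2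
        have h5 : Real.log ‖l‖ * radExp d j s ≤
          -((χ * d / (d - 1) - δ' / 4) * n) * radExp d j s := by gcongr
        refine h5.trans ?_
        rw [hLx]
        have h6 : δ' / 4 * radExp d j s * n ≤ ε₁ * n := by gcongr
        linarith) (by rw [hr]; exact Real.rpow_le_one hln.le hl1 hb0)
    obtain ⟨g1, g2⟩ := green_bounds (Real.exp_pos _).le h1 hw hw2 hw3
    exact ⟨ratio hnd g1 g2, ratio hnd h4 h3⟩
  · intro κ₀ hκ₀ hκM
    obtain ⟨w, hw, hw2, hw3⟩ := hn3 c l m (Cp_mono e4 hCp) κ₀ hκ₀ hκM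
    obtain ⟨g1, g2⟩ := green_bounds (ψ := ψ) (x := c + l * κ₀) (r := ε * ‖l‖)
      (Real.exp_pos (-((1 - ε / 2) * (n * Real.log n)))).le (fun w hw hwr => by
        apply (hn2 c l m (Cp_mono e3 hCp)).1 w hw
        have h1 : ψ w - c = (ψ w - (c + l * κ₀)) + l * κ₀ := by ring
        rw [h1]
        refine (norm_add_le _ _).trans ?_
        rw [norm_mul]
        have h2 : ‖l‖ * ‖κ₀‖ ≤ ‖l‖ * (1 / ε) := by gcongr
        linarith) hw hw2.le hw3
    refine ratio hnl g1 (g2.trans ?_)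
    apply Real.exp_le_exp.2
    have : (1 - ε) * (n * Real.log n) ≤ (1 - ε / 2) * (n * Real.log n) :=
      mul_le_mul_of_nonneg_right (by linarith) hnl.le
    linarith
  all_goals
    have hv : harm ψ c (‖l‖ / ε) ≤ Real.exp (-((1 - ε / 2) * (n * Real.log n))) := by
      refine le_trans ?_ (hn2 c l m (Cp_mono e3 hCp)).2
      apply Ang_mono
      apply ball_subset_ball
      have h1 : ‖l‖ / ε = 1 / ε * ‖l‖ := by ring
      rw [h1]
      gcongr
      linarith
    have hlt : Real.exp (-((1 - ε / 2) * (n * Real.log n))) <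
        Real.exp (-((1 - ε) * (n * Real.log n))) := by
      apply Real.exp_lt_exp.2
      have : (1 - ε / 2) * (n * Real.log n) =
        (1 - ε) * (n * Real.log n) + ε / 2 * (n * Real.log n) := by ring
      linarith
  · exact hv.trans hlt.le
  · intro F hF hE ζ hζ
    refine arc_exit hF hE hζ (Real.exp_pos _) ?_ (lt_of_le_of_lt hv hlt)
    apply Real.exp_le_one_iff.2
    have : 0 ≤ (1 - ε) * (n * Real.log n) := mul_nonneg (by linarith) hnl.le
    linarith

theorem result (d : ℕ) (hd : 2 ≤ d) (ψ : ℂ → ℂ) (hψ : IsExteriorMap (multibrotSet d) ψ) (ε : ℝ)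
    (hε : 0 < ε) (hε1 : ε ≤ 1) :
    -- most small copies
    Tendsto (fun n : ℕ =>
      ({c | c ∈ centres d n ∧ Laws d ψ (Real.log d) ε n c}.ncard : ℝ) / (centres d n).ncard)
        atTop (𝓝 1) ∧
    -- all small copies near the parameters `c₀` with a Lyapunov exponent `χ > 0`
    ∀ (χ : ℝ) (c₀ : ℂ), 0 < χ → c₀ ∈ multibrotSet d →
      Tendsto (fun n : ℕ => Real.log ‖deriv ((f d c₀)^[n]) c₀‖ / n) atTop (𝓝 χ) →
      ∃ δ : ℝ, 0 < δ ∧ ∀ᶠ n : ℕ in atTop, ∀ c ∈ centres d n,
        ‖c - c₀‖ ≤ Real.exp (-((χ - δ) * n)) → Laws d ψ χ ε n c := by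
  refine ⟨?_, ?_⟩
  · apply most_tendsto hd hψ (fun n c => Laws d ψ (Real.log d) ε n c)
    filter_upwards [ae_lyap hd hψ] with θ hθ
    exact near hd hθ hψ hε hε1
  · intro χ c₀ hχ hc₀ hlim
    exact near hd ⟨hχ, hc₀, hlim⟩ hψ hε hε1

end Pool.Agent.Results.MP_c6f924_an.GreenAroundCopies
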