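import Mathlib
import Pool.Prelude.Def_F_c31e40fa
import Pool.Agent.H206.RayT
import Pool.Agent.H206.Pre
import Pool.Graph.R_pool_sql_team_seeded_63374d34.N253.LC.Derv

/-!
# The number of external rays of the Multibrot set at a parameter with a Lyapunov exponent

Let `c₀` be a point of the Multibrot set `M_d` (`d = 2`: the Mandelbrot set) at which the critical
value has a Lyapunov exponent `χ > 0`, and let `ψ` be the exterior map of `M_d`, the conformal map of
`{|w| > 1}` onto the complement of `M_d`. Then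

* `c₀` is in the impressions of only finitely many angles `ζ`; their number `N` is at least one, and at
  each of them `ψ` has the unrestricted limit `c₀`, so that exactly `N` external rays land at `c₀`;
* `N * χ ≤ 2 * log d`;
* `M_d \ {c₀}` has exactly `N` components.

So `c₀` is a cut point of `M_d` only if `χ ≤ log d`, and `M_d \ {c₀}` has at most `2 * log d / χ`
components. The inequality is the analogue for the parameter plane of the inequality of Pommerenke,
Levin and Yoccoz for the external rays of a Julia set which land at a repelling periodic point. It is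
sharp at the point `-2` of the Mandelbrot set, where `N = 1` and `χ = 2 * log 2`.

Method. Along the `N` rays there are disjoint images of half strips, and at the height `t` the distance
to `c₀` is `t ^ (χ / log d + o(1))`, while all the points at the distance `r` of `c₀` have heights at
most `r ^ (log d / χ - o(1))`. The area of the images in the logarithmic metric is compared with the
area of a ring. For the components: the union of the impressions of a closed arc without angles of
`c₀` is contained in a connected subset of `M_d \ {c₀}`, so that there are at most `N` components; and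
two rays which land at `c₀` form a closed curve which separates the impressions on its two sides (winding
numbers), so that there are at least `N`.
-/

set_option autoImplicit false

open MeasureTheory Filter Metric Topology Set

namespace Pool.Agent.Results.MP_c6f924_an.RaysAtLyapunovParameters

open N62a1eb23
open Pool.Agent.H713R2 (IsExteriorMap)

/-- The polynomial `z ^ d + c`. -/
def f (d : ℕ) (c : ℂ) : ℂ → ℂ := fun z => z ^ d + c

/-- `c₀` is in the Multibrot set and the critical value `c₀` has the Lyapunov exponent `χ > 0`. -/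
def HasLyapunov (d : ℕ) (χ : ℝ) (c₀ : ℂ) : Prop :=
  0 < χ ∧ c₀ ∈ multibrotSet d ∧
    Tendsto (fun n : ℕ => Real.log ‖deriv ((f d c₀)^[n]) c₀‖ / n) atTop (𝓝 χ)

/-- The impression of `ζ`: all limits of `ψ (w n)` for sequences `w n → ζ` with `|w n| > 1`. -/
def impression (ψ : ℂ → ℂ) (ζ : ℂ) : Set ℂ := {c | MapClusterPt c (𝓝[{w | 1 < ‖w‖}] ζ) ψ}

/-- The points `ζ` of the unit circle such that `c₀` is in the impression of `ζ`. -/
def angles (ψ : ℂ → ℂ) (c₀ : ℂ) : Set ℂ := {ζ | ‖ζ‖ = 1 ∧ c₀ ∈ impression ψ ζ}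

/-- The external ray of `ζ` lands at `c₀`. -/
def Lands (ψ : ℂ → ℂ) (ζ c₀ : ℂ) : Prop := Tendsto (fun r : ℝ => ψ (r * ζ)) (𝓝[>] 1) (𝓝 c₀)

/-- The set of the connected components of the Multibrot set without the point `c₀`. -/
def components (d : ℕ) (c₀ : ℂ) : Set (Set ℂ) :=
  (fun x => connectedComponentIn (multibrotSet d \ {c₀}) x) '' (multibrotSet d \ {c₀})

/-- the point `-2` of the Mandelbrot set -/
theorem lyap_tip : HasLyapunov 2 (2 * Real.log 2) (-2) := by
  have hder : deriv ((f 2 (-2))^[1]) 2 = 4 := by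
    rw [Function.iterate_one]
    have h1 : HasDerivAt (fun z : ℂ => z ^ 2 + (-2 : ℂ)) (((2 : ℕ) : ℂ) * 2 ^ (2 - 1)) 2 :=
      (hasDerivAt_pow 2 (2 : ℂ)).add_const _
    unfold f
    rw [h1.deriv]
    norm_num
  have h := Pool.Agent.H206.lyap_preper (d := 2) le_rfl (b := -2) (p := 2) (n := 1) (K₀ := 1)
    le_rfl (by
      rw [Function.iterate_one]
      change ((-2 : ℂ)) ^ 2 + (-2) = 2
      norm_num) (by
      rw [Function.iterate_one]
      change ((2 : ℂ)) ^ 2 + (-2) = 2
      norm_num) (by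
      change 1 < ‖deriv ((f 2 (-2))^[1]) 2‖
      rw [hder]
      norm_num)
  have e : Real.log ‖deriv ((Pool.Agent.TH279.MD.f 2 (-2))^[1]) 2‖ / ((1 : ℕ) : ℝ) =
      2 * Real.log 2 := by
    change Real.log ‖deriv ((f 2 (-2))^[1]) 2‖ / ((1 : ℕ) : ℝ) = 2 * Real.log 2
    rw [hder, Nat.cast_one, div_one]
    have h4 : ‖(4 : ℂ)‖ = 2 ^ 2 := by norm_num
    rw [h4, Real.log_pow]
    norm_num
  rw [e] at h
  exact h

/-- **Theorem.** The number of the external rays of the Multibrot set which land at a parameter `c₀`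
with the Lyapunov exponent `χ > 0` is at least one and at most `2 * log d / χ`, and the Multibrot set
without the point `c₀` has exactly as many components as there are such rays. The point `-2` of the
Mandelbrot set has the exponent `2 * log 2`, so that the inequality is sharp there. -/
theorem result (d : ℕ) (hd : 2 ≤ d) :
    (∃ ψ : ℂ → ℂ, IsExteriorMap (multibrotSet d) ψ) ∧ HasLyapunov 2 (2 * Real.log 2) (-2) ∧
    ∀ ψ : ℂ → ℂ, IsExteriorMap (multibrotSet d) ψ → ∀ (χ : ℝ) (c₀ : ℂ), HasLyapunov d χ c₀ →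
      (angles ψ c₀).Finite ∧ (angles ψ c₀).Nonempty ∧
      (∀ ζ ∈ angles ψ c₀, Tendsto ψ (𝓝[{w | 1 < ‖w‖}] ζ) (𝓝 c₀)) ∧
      angles ψ c₀ = {ζ | ‖ζ‖ = 1 ∧ Lands ψ ζ c₀} ∧
      ((angles ψ c₀).ncard : ℝ) * χ ≤ 2 * Real.log d ∧
      (components d c₀).Finite ∧ (components d c₀).ncard = (angles ψ c₀).ncard ∧
      (Real.log d < χ → (∃ ζ, angles ψ c₀ = {ζ}) ∧ IsPreconnected (multibrotSet d \ {c₀})) := by
  obtain ⟨β, hβ⟩ := Pool.Agent.H713R2.exists_beta (d := d) hd
  refine ⟨⟨_, Pool.Agent.H713R2.exteriorMap_of_beta hβ⟩, lyap_tip, ?_⟩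
  intro ψ hψ χ c₀ hL
  have hχ : 0 < χ := hL.1
  have hlogd : 0 < Real.log d := Real.log_pos (by exact_mod_cast (by omega : 1 < d))
  have hyp := Pool.Agent.N253.LC.all hd hL hψ
  have hM := Pool.Agent.H712R2.isCompact_multibrot hd
  have hfin : (angles ψ c₀).Finite := Pool.Agent.H206.Ray.angles_finite hyp
  have hne : (angles ψ c₀).Nonempty := by
    obtain ⟨ζ, hζ, hc⟩ := hyp.exists_ray
    exact ⟨ζ, hζ, hc⟩
  have hlim : ∀ ζ ∈ angles ψ c₀, Tendsto ψ (𝓝[{w | 1 < ‖w‖}] ζ) (𝓝 c₀) := by
    intro ζ hζ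
    have hpos : 0 < 1 / (Real.log d / χ) := by positivity
    have h1 := hyp.unres Pool.Agent.N253.LC.t_KOE hζ.1 hζ.2 (half_pos hpos)
    rw [tendsto_iff_norm_sub_tendsto_zero]
    refine squeeze_zero' (Eventually.of_forall fun w => norm_nonneg _) h1 ?_
    have h2 : Continuous fun w : ℂ => ‖w - ζ‖ ^ (1 / (Real.log d / χ) - 1 / (Real.log d / χ) / 2) :=
      (by fun_prop : Continuous fun w : ℂ => ‖w - ζ‖).rpow_const fun _ => Or.inr (by linarith)
    have h3 := h2.tendsto ζ
    rw [sub_self, norm_zero, Real.zero_rpow (by linarith)] at h3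
    exact h3.mono_left nhdsWithin_le_nhds
  have hray : ∀ ζ : ℂ, ‖ζ‖ = 1 → Tendsto (fun r : ℝ => (r : ℂ) * ζ) (𝓝[>] 1)
      (𝓝[{w | 1 < ‖w‖}] ζ) := by
    intro ζ hζ
    rw [tendsto_nhdsWithin_iff]
    constructor
    · have h1 : Continuous fun r : ℝ => (r : ℂ) * ζ := by fun_prop
      have h2 := h1.tendsto 1
      rw [Complex.ofReal_one, one_mul] at h2
      exact h2.mono_left nhdsWithin_le_nhds
    · filter_upwards [self_mem_nhdsWithin] with r hr
      have hr : 1 < r := hr
      show 1 < ‖(r : ℂ) * ζ‖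
      rw [norm_mul, hζ, mul_one, Complex.norm_real, Real.norm_of_nonneg (by linarith)]
      exact hr
  have heq : angles ψ c₀ = {ζ | ‖ζ‖ = 1 ∧ Lands ψ ζ c₀} := by
    ext ζ
    constructor
    · intro hζ
      exact ⟨hζ.1, (hlim ζ hζ).comp (hray ζ hζ.1)⟩
    · rintro ⟨h1, h2⟩
      exact ⟨h1, (h2.mapClusterPt).of_comp (hray ζ h1)⟩
  have hcard := Pool.Agent.H206.Ray.angles_ncard hyp
  have hcard' : ((angles ψ c₀).ncard : ℝ) ≤ 2 * (Real.log d / χ) := hcard
  have hmul : ((angles ψ c₀).ncard : ℝ) * χ ≤ 2 * Real.log d := by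
    have h1 := mul_le_mul_of_nonneg_right hcard' hχ.le
    have h2 : 2 * (Real.log d / χ) * χ = 2 * Real.log d := by field_simp
    rwa [h2] at h1
  obtain ⟨ζ₀, hζ₀⟩ := hne
  have hcomps := Pool.Agent.H206.Ray.comps (F := hfin.toFinset) hM hψ
    (fun w hw => Pool.Agent.R240.Ext.psi_le hd hψ hw) (c₀ := c₀)
    (fun ζ => by
      rw [Set.Finite.mem_toFinset]
      rfl)
    (fun ζ hζ x hx => by
      rw [Set.Finite.mem_toFinset] at hζ
      have h1 := hlim ζ hζ
      have h2 : MapClusterPt x (𝓝[{w | 1 < ‖w‖}] ζ) ψ := hx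
      have h3 : (𝓝 x ⊓ 𝓝 c₀).NeBot := h2.neBot.mono (inf_le_inf_left _ h1)
      exact eq_of_nhds_neBot h3)
    (hfin.mem_toFinset.2 hζ₀)
  have hge := Pool.Agent.H206.Sep.comps_ge (F := hfin.toFinset) hψ
    (fun w hw => Pool.Agent.R240.Ext.psi_le hd hψ hw) (c₀ := c₀) hL.2.1
    (fun ζ => by
      rw [Set.Finite.mem_toFinset]
      rfl)
    (fun ζ hζ => hlim ζ (hfin.mem_toFinset.1 hζ)) hcomps.1
  rw [← Set.ncard_eq_toFinset_card _ hfin] at hcomps hge
  refine ⟨hfin, ⟨ζ₀, hζ₀⟩, hlim, heq, hmul, hcomps.1, le_antisymm hcomps.2 hge, ?_⟩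
  intro hlt
  have hN : (angles ψ c₀).ncard = 1 := by
    have h1 : 0 < (angles ψ c₀).ncard := (Set.ncard_pos hfin).2 ⟨ζ₀, hζ₀⟩
    have h2 : (angles ψ c₀).ncard < 2 := by
      by_contra hcon
      push Not at hcon
      have h3 : (2 : ℝ) ≤ (angles ψ c₀).ncard := by exact_mod_cast hcon
      nlinarith
    omega
  refine ⟨Set.ncard_eq_one.1 hN, ?_⟩
  have h1 : (components d c₀).ncard ≤ 1 := hN ▸ hcomps.2
  have hcf : (components d c₀).Finite := hcomps.1
  have h2 : (components d c₀).Subsingleton := by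
    have := hcf.to_subtype
    exact Set.ncard_le_one_iff_subsingleton.1 h1
  rcases (multibrotSet d \ {c₀}).eq_empty_or_nonempty with h3 | ⟨x, hx⟩
  · rw [h3]
    exact isPreconnected_empty
  · have h4 : multibrotSet d \ {c₀} = connectedComponentIn (multibrotSet d \ {c₀}) x := by
      refine Subset.antisymm (fun y hy => ?_) (connectedComponentIn_subset _ _)
      have h5 : connectedComponentIn (multibrotSet d \ {c₀}) y =
          connectedComponentIn (multibrotSet d \ {c₀}) x := h2 ⟨y, hy, rfl⟩ ⟨x, hx, rfl⟩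
      rw [← h5]
      exact mem_connectedComponentIn hy
    rw [h4]
    exact isPreconnected_connectedComponentIn

end Pool.Agent.Results.MP_c6f924_an.RaysAtLyapunovParameters
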